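import Mathlib
import Pool.Agent.Q103.RP.Spc

/-!
# Extension of homomorphisms to algebraically closed fields
-/

set_option autoImplicit false
set_option linter.overlappingInstances false

open Polynomial
open Pool.Agent.Q103.RP (loc mem_loc exists_hom)

namespace Pool.Agent.J6H55.LE

theorem ext_hom {C A Ω : Type} [CommRing C] [CommRing A] [Algebra C A] [Algebra.IsIntegral C A]
    (hinj : Function.Injective (algebraMap C A)) [Field Ω] [IsAlgClosed Ω] (φ : C →+* Ω) :
    ∃ ψ : A →+* Ω, ∀ c, ψ (algebraMap C A c) = φ c := by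
  classical
  obtain ⟨p, hpd⟩ : ∃ p, p = RingHom.ker φ := ⟨_, rfl⟩
  have hp : p.IsPrime := by
    rw [hpd]
    exact RingHom.ker_isPrime φ
  obtain ⟨Q, -, hQ, hQc⟩ := Ideal.exists_ideal_over_prime_of_isIntegral p (⊥ : Ideal A) (by
    intro c hc
    rw [Ideal.mem_comap, Ideal.mem_bot] at hc
    have : c = 0 := hinj (by rw [hc, map_zero])
    rw [this]
    exact zero_mem _)
  have hlo : Q.LiesOver p := ⟨hQc.symm⟩
  let κ : C ⧸ p →+* Ω := Ideal.Quotient.lift p φ fun c hc => by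
    rw [hpd, RingHom.mem_ker] at hc
    exact hc
  have hκ : Function.Injective κ := by
    rw [injective_iff_map_eq_zero]
    intro b hb
    obtain ⟨c, rfl⟩ := Ideal.Quotient.mk_surjective b
    rw [Ideal.Quotient.eq_zero_iff_mem, hpd, RingHom.mem_ker]
    exact hb
  let _ : Algebra (C ⧸ p) Ω := κ.toAlgebra
  have hd1 : IsDomain (C ⧸ p) := (Ideal.Quotient.isDomain_iff_prime p).2 hp
  have hd2 : IsDomain (A ⧸ Q) := (Ideal.Quotient.isDomain_iff_prime Q).2 hQ
  have hf1 : FaithfulSMul (C ⧸ p) Ω := (faithfulSMul_iff_algebraMap_injective _ _).2 hκ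
  have hf2 : FaithfulSMul (C ⧸ p) (A ⧸ Q) := by
    rw [faithfulSMul_iff_algebraMap_injective, injective_iff_map_eq_zero]
    intro b hb
    obtain ⟨c, rfl⟩ := Ideal.Quotient.mk_surjective b
    have h1 : Ideal.Quotient.mk Q (algebraMap C A c) = 0 := hb
    rw [Ideal.Quotient.eq_zero_iff_mem] at h1 ⊢
    rw [← hQc]
    exact h1
  have hint : Algebra.IsIntegral (C ⧸ p) (A ⧸ Q) := by
    refine ⟨fun b => ?_⟩
    obtain ⟨y, rfl⟩ := Ideal.Quotient.mk_surjective b
    obtain ⟨P, hP, hPy⟩ := Algebra.IsIntegral.isIntegral (R := C) y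
    refine ⟨P.map (Ideal.Quotient.mk p), hP.map _, ?_⟩
    rw [eval₂_map]
    have h1 := hom_eval₂ P (algebraMap C A) (Ideal.Quotient.mk Q) y
    rw [hPy, map_zero] at h1
    exact h1.symm
  let f : (A ⧸ Q) →ₐ[C ⧸ p] Ω := IsAlgClosed.lift
  refine ⟨f.toRingHom.comp (Ideal.Quotient.mk Q), fun c => ?_⟩
  exact f.commutes (Ideal.Quotient.mk p c)

/-- **Specialisation of a function field** at the points of an affine space over which the variety
is generically finite. -/
theorem exists_spec {K : Type} [Field K] [Algebra ℂ K] {σ : Type} {B : σ → K}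
    (hB : IsTranscendenceBasis ℂ B) {S : Set K} (hS : S.Finite) :
    ∃ P : MvPolynomial σ ℂ, P ≠ 0 ∧ ∀ (Ω : Type) [Field Ω] [Algebra ℂ Ω] [IsAlgClosed Ω]
      (τ : σ → Ω), MvPolynomial.aeval τ P ≠ 0 → ∃ (T : Subalgebra ℂ K) (ψ : T →ₐ[ℂ] Ω),
        S ⊆ T ∧ ∀ i, ∃ h : B i ∈ T, ψ ⟨B i, h⟩ = τ i := by
  classical
  have halg : Algebra.IsAlgebraic (Algebra.adjoin ℂ (Set.range B)) K := hB.isAlgebraic
  have hmem : ∀ y : Algebra.adjoin ℂ (Set.range B), ∃ Q : MvPolynomial σ ℂ,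
      MvPolynomial.aeval B Q = (y : K) := by
    intro y
    exact (Algebra.adjoin_range_eq_range_aeval ℂ B).le y.2
  have hex : ∀ s : K, ∃ Q : MvPolynomial σ ℂ, Q ≠ 0 ∧
      IsIntegral (Algebra.adjoin ℂ (Set.range B)) (MvPolynomial.aeval B Q * s) := by
    intro s
    obtain ⟨y, hy, hys⟩ := (halg.isAlgebraic s).exists_integral_multiple
    obtain ⟨Q, hQ⟩ := hmem y
    refine ⟨Q, ?_, ?_⟩
    · rintro rfl
      apply hy
      rw [map_zero] at hQ
      exact Subtype.ext hQ.symm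
    · rw [hQ]
      rw [Algebra.smul_def] at hys
      exact hys
  choose Q hQ0 hQ using hex
  obtain ⟨P, hP⟩ : ∃ P, P = ∏ s ∈ hS.toFinset, Q s := ⟨_, rfl⟩
  have hP0 : P ≠ 0 := by
    rw [hP]
    exact Finset.prod_ne_zero_iff.2 fun s _ => hQ0 s
  have hinj := (algebraicIndependent_iff_injective_aeval.1 hB.1)
  have hPB : MvPolynomial.aeval B P ≠ 0 := fun h0 => hP0 (hinj (by rw [h0, map_zero]))
  refine ⟨P, hP0, ?_⟩
  intro Ω _ _ _ τ hτ
  obtain ⟨φ, hφ⟩ := exists_hom B P hPB τ (fun G hG => by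
    have h1 : G = 0 := hinj (by rw [hG, map_zero])
    rw [h1, map_zero]) hτ
  obtain ⟨ψ, hψ⟩ := ext_hom (C := loc B P hPB) (A := integralClosure (loc B P hPB) K)
    (fun a b hab => Subtype.ext (congrArg (fun y : integralClosure (loc B P hPB) K => (y : K)) hab))
    φ.toRingHom
  have hBl : ∀ G : MvPolynomial σ ℂ, MvPolynomial.aeval B G ∈ loc B P hPB := fun G =>
    mem_loc.2 ⟨G, 0, by rw [pow_zero, mul_one]⟩
  have hle : ∀ y : K, y ∈ loc B P hPB → y ∈ integralClosure (loc B P hPB) K := fun y hy =>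
    isIntegral_algebraMap (x := (⟨y, hy⟩ : loc B P hPB))
  refine ⟨(integralClosure (loc B P hPB) K).restrictScalars ℂ,
    { toRingHom := ψ
      commutes' := fun c => ?_ }, ?_, ?_⟩
  · change ψ (algebraMap (loc B P hPB) _ (algebraMap ℂ (loc B P hPB) c)) = _
    rw [hψ]
    exact φ.commutes c
  · intro s hs
    change IsIntegral (loc B P hPB) s
    have hs' : s ∈ hS.toFinset := hS.mem_toFinset.2 hs
    have h1 : P = Q s * ∏ s' ∈ hS.toFinset.erase s, Q s' := by
      rw [hP, Finset.mul_prod_erase _ _ hs']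
    have hQs : MvPolynomial.aeval B (Q s) ≠ 0 := fun h0 => hQ0 s (hinj (by rw [h0, map_zero]))
    have h2 : (MvPolynomial.aeval B (Q s))⁻¹ ∈ loc B P hPB := by
      refine mem_loc.2 ⟨∏ s' ∈ hS.toFinset.erase s, Q s', 1, ?_⟩
      rw [pow_one, h1, map_mul, inv_mul_cancel_left₀ hQs]
    have h3 : IsIntegral (loc B P hPB) (MvPolynomial.aeval B (Q s) * s) := by
      obtain ⟨p, hp, hps⟩ := hQ s
      have hsub : Algebra.adjoin ℂ (Set.range B) ≤ loc B P hPB := by
        rw [Algebra.adjoin_le_iff]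
        rintro _ ⟨i, rfl⟩
        have h4 := hBl (MvPolynomial.X i)
        rwa [MvPolynomial.aeval_X] at h4
      refine ⟨p.map (Subalgebra.inclusion hsub).toRingHom, hp.map _, ?_⟩
      rw [eval₂_map]
      exact hps
    have h4 : s = algebraMap (loc B P hPB) K ⟨_, h2⟩ * (MvPolynomial.aeval B (Q s) * s) := by
      change s = (MvPolynomial.aeval B (Q s))⁻¹ * (MvPolynomial.aeval B (Q s) * s)
      rw [inv_mul_cancel_left₀ hQs]
    rw [h4]
    exact isIntegral_algebraMap.mul h3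
  · intro i
    have h1 : B i ∈ loc B P hPB := by
      have h4 := hBl (MvPolynomial.X i)
      rwa [MvPolynomial.aeval_X] at h4
    refine ⟨hle _ h1, ?_⟩
    have h2 := hψ ⟨B i, h1⟩
    have h3 : φ ⟨B i, h1⟩ = τ i := by
      have h4 := hφ (MvPolynomial.X i) (hBl _)
      rw [MvPolynomial.aeval_X τ] at h4
      have h5 : (⟨B i, h1⟩ : loc B P hPB) = ⟨MvPolynomial.aeval B (MvPolynomial.X i), hBl _⟩ :=
        Subtype.ext (MvPolynomial.aeval_X B i).symm
      rw [h5]
      exact h4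
    rw [← h3]
    exact h2

end Pool.Agent.J6H55.LE
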